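import Pool.Agent.W662.SK.StmtsB

set_option autoImplicit false

open scoped InnerProductSpace ENNReal
open Filter Topology

namespace Pool.Agent.W371.SK.P

open Pool.Agent.W662.SK

noncomputable section

theorem p (h3 : S_B3) (hw : S_WF) (hq : S_Q) (hf : S_FELL) : S_P := by
  classical
  intro Γ K _ _ _ _ _ π π' Φ Ψ hΦ hπ hsh ω0 hω hJ n ζ F ε hε
  obtain ⟨s, hcomm, hweak⟩ := hsh
  let η : ℕ → Fin n → L2 Γ K := fun N i => lp.single 2 (1 : Γ) (s N (ζ i))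
  have hRho : ∀ N g i, Rho K g (η N i) = lp.single 2 (g⁻¹ : Γ) (s N (ζ i)) := by
    intro N g i
    change Rho K g (lp.single 2 (1 : Γ) (s N (ζ i))) = _
    rw [Rho_single, one_mul]
  have hkey : ∀ N g i j, ⟪η N j, sg π' (cl (Lam K g)) (Rho K g (η N i))⟫_ℂ
      = ⟪ζ j, π' g (ζ i)⟫_ℂ := by
    intro N g i j
    rw [hRho, sg_Lam, ContinuousLinearMap.comp_apply, cl_apply, Lam_single, lft_single,
      mul_inv_cancel, cl_apply]
    change ⟪(lp.single 2 (1 : Γ) (s N (ζ j)) : L2 Γ K), _⟫_ℂ = _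
    rw [inner_single_left', lp.single_apply_self, hcomm, LinearIsometry.inner_map_map]
  have hlim : ∀ g i j, Tendsto (fun N => ⟪η N j, (sg π' (cl (Lam K g)) -
      Ψ ⟨cl (ω0 g), hω g⟩) (Rho K g (η N i))⟫_ℂ) atTop (𝓝 0) := by
    intro g i j
    have h1 := h3 Γ K s hweak _ (hJ g) (lp.single 2 (g⁻¹ : Γ) (ζ i))
    have h2 : Tendsto (fun N => ‖ζ j‖ * ‖(sg π' (cl (Lam K g)) - Ψ ⟨cl (ω0 g), hω g⟩)
        (lft Γ (s N).toContinuousLinearMap (lp.single 2 (g⁻¹ : Γ) (ζ i)))‖) atTop (𝓝 0) := by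
      simpa using h1.const_mul ‖ζ j‖
    refine squeeze_zero_norm (fun N => ?_) h2
    refine (norm_inner_le_norm _ _).trans ?_
    rw [hRho, lft_single]
    have h4 : ‖η N j‖ = ‖ζ j‖ := by
      change ‖(lp.single 2 (1 : Γ) (s N (ζ j)) : L2 Γ K)‖ = _
      rw [lp.norm_single (by norm_num), LinearIsometry.norm_map]
    rw [h4]
    exact le_of_eq rfl
  have hev : ∀ᶠ N in atTop, ∀ g ∈ F, ∀ i j, ‖⟪η N j, (sg π' (cl (Lam K g)) -
      Ψ ⟨cl (ω0 g), hω g⟩) (Rho K g (η N i))⟫_ℂ‖ < ε / 2 := by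
    rw [Filter.eventually_all_finset]
    intro g _
    rw [Filter.eventually_all]
    intro i
    rw [Filter.eventually_all]
    intro j
    have h5 := (hlim g i j).norm
    rw [norm_zero] at h5
    exact h5.eventually_lt_const (half_pos hε)
  obtain ⟨N, hN⟩ := hev.exists
  obtain ⟨E, i1, i2, i3, ω, Y, hY⟩ := hq Γ K π Φ Ψ hΦ (hw Γ K π hπ) ω0 hω n (η N) F (ε / 2)
    (half_pos hε)
  obtain ⟨η', hη'⟩ := hf Γ E ω n Y
  refine ⟨E, i1, i2, i3, η', fun g hg i j => ?_⟩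
  rw [hη']
  have h6 := hN g hg i j
  have h7 := hY g hg i j
  rw [ContinuousLinearMap.sub_apply, inner_sub_right, hkey] at h6
  calc _ = ‖(⟪ζ j, π' g (ζ i)⟫_ℂ - ⟪η N j, Ψ ⟨cl (ω0 g), hω g⟩ (Rho K g (η N i))⟫_ℂ) +
        (⟪η N j, Ψ ⟨cl (ω0 g), hω g⟩ (Rho K g (η N i))⟫_ℂ -
          ⟪Y j, lft Γ (cl (ω g)) (Rho E g (Y i))⟫_ℂ)‖ := by congr 1; ring
    _ ≤ _ := norm_add_le _ _
    _ < ε / 2 + ε / 2 := add_lt_add h6 h7
    _ = ε := by ring

end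

end Pool.Agent.W371.SK.P
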